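import Pool.Agent.helper74.VQ.SpecB

/-!
# Project VQ (MP_07c750_an), row VSY: calculus of symbols
-/

set_option autoImplicit false

open scoped ContDiff Topology
open Filter Set

namespace Pool.Agent.VQ

noncomputable section

/-- an open neighbourhood on which finitely many functions are `C^K` -/
lemma VSY_nhd {f g : ℂ → ℂ} {v : ℂ} (K : ℕ) (hf : ContDiffAt ℝ ∞ f v) (hg : ContDiffAt ℝ ∞ g v) :
    ∃ u : Set ℂ, IsOpen u ∧ v ∈ u ∧ ContDiffOn ℝ K f u ∧ ContDiffOn ℝ K g u := by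
  have hf' : ContDiffAt ℝ (K : ℕ∞ω) f v := hf.of_le (by exact_mod_cast le_top)
  have hg' : ContDiffAt ℝ (K : ℕ∞ω) g v := hg.of_le (by exact_mod_cast le_top)
  have ef := hf'.eventually (by simp)
  have eg := hg'.eventually (by simp)
  obtain ⟨u, hu, huo, hvu⟩ := eventually_nhds_iff.1 (ef.and eg)
  exact ⟨u, huo, hvu, fun w hw => (hu w hw).1.contDiffWithinAt, fun w hw => (hu w hw).2.contDiffWithinAt⟩

/-- Leibniz at a point -/
lemma VSY_leib {f g : ℂ → ℂ} {v : ℂ} (k : ℕ) (hf : ContDiffAt ℝ ∞ f v) (hg : ContDiffAt ℝ ∞ g v) :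
    ‖iteratedFDeriv ℝ k (fun w => f w * g w) v‖ ≤ ∑ i ∈ Finset.range (k + 1), (k.choose i : ℝ) * ‖iteratedFDeriv ℝ i f v‖ *
      ‖iteratedFDeriv ℝ (k - i) g v‖ := by
  obtain ⟨u, huo, hvu, hfu, hgu⟩ := VSY_nhd k hf hg
  have h := norm_iteratedFDerivWithin_mul_le (𝕜 := ℝ) (n := k) hfu hgu huo.uniqueDiffOn hvu le_rfl
  rw [iteratedFDerivWithin_of_isOpen k huo hvu] at h
  refine h.trans (le_of_eq (Finset.sum_congr rfl fun i _ => ?_))
  rw [iteratedFDerivWithin_of_isOpen i huo hvu, iteratedFDerivWithin_of_isOpen (k - i) huo hvu]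

/-- Leibniz with bounds -/
lemma VSY_leib' {f g : ℂ → ℂ} {v : ℂ} {K k : ℕ} {N m1 m2 : ℝ} (hk : k ≤ K) (hN : 1 ≤ N) (h1 : 0 ≤ m1) (h2 : 0 ≤ m2) (hf : ContDiffAt ℝ ∞ f v) (hg : ContDiffAt ℝ ∞ g v)
    (bf : ∀ k ≤ K, ‖iteratedFDeriv ℝ k f v‖ ≤ m1 * N ^ k) (bg : ∀ k ≤ K, ‖iteratedFDeriv ℝ k g v‖ ≤ m2 * N ^ k) :
    ‖iteratedFDeriv ℝ k (fun w => f w * g w) v‖ ≤ 2 ^ K * m1 * m2 * N ^ k := by
  refine (VSY_leib k hf hg).trans ?_
  have hN0 : 0 ≤ N := by linarith
  have key : ∀ i ∈ Finset.range (k + 1), (k.choose i : ℝ) * ‖iteratedFDeriv ℝ i f v‖ * ‖iteratedFDeriv ℝ (k - i) g v‖ ≤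
      (k.choose i : ℝ) * (m1 * m2 * N ^ k) := by
    intro i hi
    have hi' : i ≤ k := by
      have := Finset.mem_range.1 hi
      omega
    have e : m1 * m2 * N ^ k = (m1 * N ^ i) * (m2 * N ^ (k - i)) := by
      rw [show N ^ k = N ^ i * N ^ (k - i) by rw [← pow_add, Nat.add_sub_cancel' hi']]
      ring
    rw [e, mul_assoc]
    refine mul_le_mul_of_nonneg_left ?_ (Nat.cast_nonneg _)
    exact mul_le_mul (bf i (hi'.trans hk)) (bg (k - i) ((Nat.sub_le _ _).trans hk)) (norm_nonneg _) (by positivity)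
  refine (Finset.sum_le_sum key).trans ?_
  rw [← Finset.sum_mul]
  have hs : (∑ i ∈ Finset.range (k + 1), (k.choose i : ℝ)) = 2 ^ k := by
    have := Nat.sum_range_choose k
    exact_mod_cast this
  rw [hs]
  have h3 : (2 : ℝ) ^ k ≤ 2 ^ K := pow_le_pow_right₀ (by norm_num) hk
  have h4 : 0 ≤ m1 * m2 * N ^ k := by positivity
  calc (2 : ℝ) ^ k * (m1 * m2 * N ^ k) ≤ 2 ^ K * (m1 * m2 * N ^ k) := mul_le_mul_of_nonneg_right h3 h4
    _ = 2 ^ K * m1 * m2 * N ^ k := by ring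

/-- the derivatives of the exponential function -/
lemma VSY_exp (n : ℕ) (z : ℂ) : ‖iteratedFDeriv ℝ n Complex.exp z‖ ≤ ‖Complex.exp z‖ := by
  induction n with
  | zero => simp
  | succ n ih =>
    rw [← norm_iteratedFDeriv_fderiv]
    have e : fderiv ℝ Complex.exp = (ContinuousLinearMap.mul ℝ ℂ) ∘ Complex.exp := by
      funext w
      have h := (Complex.hasStrictFDerivAt_exp_real w).hasFDerivAt.fderiv
      rw [h]
      ext
      simp
    rw [e]
    refine ((ContinuousLinearMap.mul ℝ ℂ).norm_iteratedFDeriv_comp_left (N := ∞)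
      (Complex.contDiff_exp (𝕜 := ℝ)).contDiffAt (by exact_mod_cast le_top)).trans ?_
    have h1 : ‖ContinuousLinearMap.mul ℝ ℂ‖ ≤ 1 := ContinuousLinearMap.opNorm_mul_le ℝ ℂ
    calc ‖ContinuousLinearMap.mul ℝ ℂ‖ * ‖iteratedFDeriv ℝ n Complex.exp z‖ ≤ 1 * ‖iteratedFDeriv ℝ n Complex.exp z‖ :=
          mul_le_mul_of_nonneg_right h1 (norm_nonneg _)
      _ ≤ ‖Complex.exp z‖ := by rw [one_mul]; exact ih

theorem VSY_proof : VSY_stmt := by
  intro K
  have hK : (1 : ℝ) ≤ (K.factorial : ℝ) := by exact_mod_cast Nat.one_le_iff_ne_zero.2 (Nat.factorial_ne_zero K)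
  have h2K : (1 : ℝ) ≤ 2 ^ K := one_le_pow₀ (by norm_num)
  refine ⟨2 ^ K + K.factorial, by linarith, ?_, ?_, ?_⟩
  · intro N m1 m2 s A1 A2 hN h1 h2 hA1 hA2
    constructor
    · intro v hv
      refine ⟨(hA1 v hv).1.mul (hA2 v hv).1, fun k hk => ?_⟩
      refine (VSY_leib' hk hN h1 h2 (hA1 v hv).1 (hA2 v hv).1 (hA1 v hv).2 (hA2 v hv).2).trans ?_
      have : 0 ≤ m1 * m2 * N ^ k := by positivity
      nlinarith
    · intro v hv
      refine ⟨(hA1 v hv).1.add (hA2 v hv).1, fun k hk => ?_⟩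
      have hk1 : ContDiffAt ℝ (k : ℕ∞ω) A1 v := (hA1 v hv).1.of_le (by exact_mod_cast le_top)
      have hk2 : ContDiffAt ℝ (k : ℕ∞ω) A2 v := (hA2 v hv).1.of_le (by exact_mod_cast le_top)
      have e : iteratedFDeriv ℝ k (fun w => A1 w + A2 w) v = iteratedFDeriv ℝ k A1 v + iteratedFDeriv ℝ k A2 v :=
        iteratedFDeriv_add_apply hk1 hk2
      rw [e, add_mul]
      exact (norm_add_le _ _).trans (add_le_add ((hA1 v hv).2 k hk) ((hA2 v hv).2 k hk))
  · intro N s ψ hN hψ v hv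
    obtain ⟨h1, h2, h3⟩ := hψ v hv
    refine ⟨h1.cexp, fun k hk => ?_⟩
    obtain ⟨u, huo, hvu, hfu, -⟩ := VSY_nhd k h1 h1
    have h := norm_iteratedFDerivWithin_comp_le (𝕜 := ℝ) (g := Complex.exp) (f := ψ) (n := k) (s := u) (t := univ) (x := v) (N := (k : ℕ∞ω))
      (Complex.contDiff_exp (𝕜 := ℝ)).contDiffOn hfu le_rfl uniqueDiffOn_univ huo.uniqueDiffOn (mapsTo_univ _ _) hvu (C := 1) (D := N)
      (fun i _ => by
        rw [iteratedFDerivWithin_univ]
        refine (VSY_exp i (ψ v)).trans ?_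
        rw [Complex.norm_exp]
        exact Real.exp_le_one_iff.2 h2)
      (fun i hi hik => by
        rw [iteratedFDerivWithin_of_isOpen i huo hvu]
        exact h3 i hi (hik.trans hk))
    rw [iteratedFDerivWithin_of_isOpen k huo hvu] at h
    refine h.trans ?_
    have hkK : (k.factorial : ℝ) ≤ K.factorial := by exact_mod_cast Nat.factorial_le hk
    have hNk : 0 ≤ N ^ k := by positivity
    rw [mul_one]
    exact mul_le_mul_of_nonneg_right (by linarith) hNk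
  · intro N m1 m2 s s' A X hN h1 h2 hs hX hXs bX hA
    have far : ∀ v : ℂ, s' < ‖v‖ → (fun w => X w * A w) =ᶠ[𝓝 v] fun _ => (0 : ℂ) := by
      intro v hv
      have : ∀ᶠ w : ℂ in 𝓝 v, s' < ‖w‖ := continuous_norm.continuousAt.eventually (lt_mem_nhds hv)
      filter_upwards [this] with w hw
      have : X w = 0 := by
        by_contra h
        exact absurd (hXs w h) (not_le.2 hw)
      rw [this, zero_mul]
    constructor
    · rw [contDiff_iff_contDiffAt]
      intro v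
      by_cases hv : ‖v‖ ≤ s
      · exact hX.contDiffAt.mul (hA v hv).1
      · exact contDiffAt_const.congr_of_eventuallyEq (far v (hs.trans (not_le.1 hv)))
    · intro k hk v
      by_cases hv : ‖v‖ ≤ s
      · refine (VSY_leib' hk hN h1 h2 hX.contDiffAt (hA v hv).1 (fun k hk => bX k hk v) (hA v hv).2).trans ?_
        have : 0 ≤ m1 * m2 * N ^ k := by positivity
        nlinarith
      · have e := (far v (hs.trans (not_le.1 hv))).iteratedFDeriv ℝ k
        rw [e.eq_of_nhds]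
        have : iteratedFDeriv ℝ k (fun _ : ℂ => (0 : ℂ)) v = 0 := by
          simp
        rw [this, norm_zero]
        positivity

end

end Pool.Agent.VQ
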