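import Pool.Agent.helper74.VQ.SpecB

/-!
# Project VQ (MP_07c750_an), row VYC: real solutions of the linear system are controlled by `det Y`
-/

set_option autoImplicit false

open scoped MatrixGroups ContDiff Topology UpperHalfPlane ComplexConjugate ENNReal
open UpperHalfPlane MeasureTheory Filter Set

namespace Pool.Agent.VQ

open Pool.Agent.RS

noncomputable section

lemma VYC_cs {p q r s : ℝ} : p * q + r * s ≤ Real.sqrt (p ^ 2 + r ^ 2) * Real.sqrt (q ^ 2 + s ^ 2) := by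
  rw [← Real.sqrt_mul (by positivity)]
  apply Real.le_sqrt_of_sq_le
  nlinarith [sq_nonneg (p * s - r * q)]

lemma VYC_J (Y : Matrix (Fin 2) (Fin 2) ℂ) (j : Fin 2) : (JJ * Y) 0 j = Y 1 j ∧ (JJ * Y) 1 j = -Y 0 j := by
  constructor <;> simp [JJ, Matrix.mul_apply, Fin.sum_univ_two]

lemma VYC_K (U : ℍ → ℝ) (E : ℝ) (g : SL(2, ℝ)) (Y : Matrix (Fin 2) (Fin 2) ℂ) (j : Fin 2) :
    (KK U E g * Y) 0 j = ((hess U g 0 0 / 2 : ℝ) : ℂ) * Y 0 j + ((hess U g 0 1 / 2 : ℝ) : ℂ) * Y 1 j ∧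
    (KK U E g * Y) 1 j = ((hess U g 1 0 / 2 : ℝ) : ℂ) * Y 0 j + ((hess U g 1 1 / 2 + rho U E g ^ 2 : ℝ) : ℂ) * Y 1 j := by
  constructor <;> simp [KK, Matrix.mul_apply, Fin.sum_univ_two]

/-- the conserved pairing -/
def VYC_w (D : Dyn) (E : ℝ) (g : SL(2, ℝ)) (y π : ℝ → Fin 2 → ℝ) (j : Fin 2) (s : ℝ) : ℂ :=
  D.Y E s g 0 j * (π s 0 : ℝ) + D.Y E s g 1 j * (π s 1 : ℝ) - D.P E s g 0 j * (y s 0 : ℝ) - D.P E s g 1 j * (y s 1 : ℝ)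

lemma VYC_dw {Γ : Subgroup SL(2, ℝ)} {δ : ℝ} {B : ℕ → ℝ} {D : Dyn} (hD : OKD Γ δ B D) {E : ℝ} {g : SL(2, ℝ)} (hE : |E| ≤ 1 / 8)
    (hsym : ∀ g, hess D.U g 0 1 = hess D.U g 1 0) {y π : ℝ → Fin 2 → ℝ} (hS : Sol D E g y π) (j : Fin 2) (t : ℝ) :
    HasDerivAt (VYC_w D E g y π j) 0 t := by
  obtain ⟨h0, h1, h2, h3⟩ := hS t
  have c0 := h0.ofReal_comp
  have c1 := h1.ofReal_comp
  have c2 := h2.ofReal_comp
  have c3 := h3.ofReal_comp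
  have dY := fun i => hD.dY E t g hE i j
  have dP := fun i => hD.dP E t g hE i j
  have e := ((((dY 0).mul c2).add ((dY 1).mul c3)).sub ((dP 0).mul c0)).sub ((dP 1).mul c1)
  refine e.congr_deriv ?_
  simp only [Matrix.add_apply, Matrix.smul_apply, smul_eq_mul, (VYC_J _ j).1, (VYC_J _ j).2, (VYC_K _ _ _ _ j).1, (VYC_K _ _ _ _ j).2,
    hsym]
  push_cast
  ring

/-- one solution -/
lemma VYC_one (hVYA : VYA_stmt) {Γ : Subgroup SL(2, ℝ)} {δ : ℝ} {B : ℕ → ℝ} {D : Dyn} (hD : OKD Γ δ B D) (hδ : δ ≤ 1 / 10) {E : ℝ} {g : SL(2, ℝ)} (hE : |E| ≤ 1 / 8)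
    (hsym : ∀ g, hess D.U g 0 1 = hess D.U g 1 0) {y π : ℝ → Fin 2 → ℝ} (hS : Sol D E g y π) (t : ℝ) :
    ∃ u0 u1 : ℂ, ((y t 0 : ℝ) : ℂ) = D.Y E t g 0 0 * u0 + D.Y E t g 0 1 * u1 ∧ ((y t 1 : ℝ) : ℂ) = D.Y E t g 1 0 * u0 + D.Y E t g 1 1 * u1 ∧
      Real.sqrt (‖u0‖ ^ 2 + ‖u1‖ ^ 2) ≤ Real.sqrt (y 0 0 ^ 2 + y 0 1 ^ 2 + π 0 0 ^ 2 + π 0 1 ^ 2) := by
  obtain ⟨hdet, -, -, -, -, -, hq⟩ := hVYA Γ δ B D hD hδ E t g hE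
  set Y := D.Y E t g with hY
  set v : ℂ := ⟨y t 0, y t 1⟩ with hv
  set u := Y⁻¹.mulVec ![(v.re : ℂ), (v.im : ℂ)] with hu
  have hYu : Y.mulVec u = ![(v.re : ℂ), (v.im : ℂ)] := by
    rw [hu, Matrix.mulVec_mulVec, Matrix.mul_nonsing_inv _ (isUnit_iff_ne_zero.2 hdet), Matrix.one_mulVec]
  have y0 : ((y t 0 : ℝ) : ℂ) = Y 0 0 * u 0 + Y 0 1 * u 1 := by
    have := congrFun hYu 0
    simpa [Matrix.mulVec, dotProduct, Fin.sum_univ_two] using this.symm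
  have y1 : ((y t 1 : ℝ) : ℂ) = Y 1 0 * u 0 + Y 1 1 * u 1 := by
    have := congrFun hYu 1
    simpa [Matrix.mulVec, dotProduct, Fin.sum_univ_two] using this.symm
  refine ⟨u 0, u 1, y0, y1, ?_⟩
  have wc : ∀ j, VYC_w D E g y π j t = VYC_w D E g y π j 0 := fun j =>
    is_const_of_deriv_eq_zero (fun s => (VYC_dw hD hE hsym hS j s).differentiableAt) (fun s => (VYC_dw hD hE hsym hS j s).deriv) t 0
  have w00 : VYC_w D E g y π 0 0 = (π 0 0 : ℝ) - Complex.I * (y 0 0 : ℝ) := by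
    unfold VYC_w
    rw [hD.Y0, hD.P0]
    simp
  have w10 : VYC_w D E g y π 1 0 = (π 0 1 : ℝ) - Complex.I * (y 0 1 : ℝ) := by
    unfold VYC_w
    rw [hD.Y0, hD.P0]
    simp
  have nrm : ∀ a b : ℝ, ‖(a : ℂ) - Complex.I * (b : ℝ)‖ ^ 2 = a ^ 2 + b ^ 2 := by
    intro a b
    rw [← Complex.normSq_eq_norm_sq, Complex.normSq_apply]
    simp
    ring
  have hP : D.P E t g = D.M E t g * Y := by
    unfold Dyn.M
    rw [Matrix.mul_assoc, Matrix.nonsing_inv_mul _ (isUnit_iff_ne_zero.2 hdet), Matrix.mul_one]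
  have key : qf (D.M E t g) v = ((y t 0 * π t 0 + y t 1 * π t 1 : ℝ) : ℂ) - (u 0 * VYC_w D E g y π 0 t + u 1 * VYC_w D E g y π 1 t) := by
    unfold VYC_w qf
    rw [hP, ← hY]
    simp only [Matrix.mul_apply, Fin.sum_univ_two, hv]
    push_cast
    rw [y0, y1]
    ring
  have him : (qf (D.M E t g) v).im = ‖u 0‖ ^ 2 + ‖u 1‖ ^ 2 := hq v
  rw [key, Complex.sub_im, Complex.ofReal_im, zero_sub] at him
  set w0 := VYC_w D E g y π 0 t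
  set w1 := VYC_w D E g y π 1 t
  have hle : ‖u 0‖ ^ 2 + ‖u 1‖ ^ 2 ≤ ‖u 0‖ * ‖w0‖ + ‖u 1‖ * ‖w1‖ := by
    rw [← him]
    calc -(u 0 * w0 + u 1 * w1).im ≤ |(u 0 * w0 + u 1 * w1).im| := neg_le_abs _
      _ ≤ ‖u 0 * w0 + u 1 * w1‖ := Complex.abs_im_le_norm _
      _ ≤ ‖u 0 * w0‖ + ‖u 1 * w1‖ := norm_add_le _ _
      _ = ‖u 0‖ * ‖w0‖ + ‖u 1‖ * ‖w1‖ := by rw [norm_mul, norm_mul]
  have hw : ‖w0‖ ^ 2 + ‖w1‖ ^ 2 = y 0 0 ^ 2 + y 0 1 ^ 2 + π 0 0 ^ 2 + π 0 1 ^ 2 := by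
    have e0 : w0 = (π 0 0 : ℝ) - Complex.I * (y 0 0 : ℝ) := (wc 0).trans w00
    have e1 : w1 = (π 0 1 : ℝ) - Complex.I * (y 0 1 : ℝ) := (wc 1).trans w10
    rw [e0, e1, nrm, nrm]
    ring
  rw [← hw]
  have hcs := hle.trans VYC_cs
  set a := Real.sqrt (‖u 0‖ ^ 2 + ‖u 1‖ ^ 2) with ha
  set b := Real.sqrt (‖w0‖ ^ 2 + ‖w1‖ ^ 2)
  have ha2 : a * a = ‖u 0‖ ^ 2 + ‖u 1‖ ^ 2 := Real.mul_self_sqrt (by positivity)
  rw [← ha2] at hcs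
  have ha0 : 0 ≤ a := Real.sqrt_nonneg _
  rcases ha0.eq_or_lt with h | h
  · rw [← h]
    exact Real.sqrt_nonneg _
  · exact le_of_mul_le_mul_left hcs h

theorem VYC_proof (hVYA : VYA_stmt) (hVUB : VUB_stmt) : VYC_stmt := by
  intro Γ δ B D hD hδ E g y1 π1 y2 π2 hE hS1 hS2 t
  have hsym : ∀ g, hess D.U g 0 1 = hess D.U g 1 0 := fun g => ((hVUB Γ δ B D.U hD.pot hδ).2.1 g).2.2.2.2
  obtain ⟨u0, u1, a0, a1, hu⟩ := VYC_one hVYA hD hδ hE hsym hS1 t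
  obtain ⟨v0, v1, b0, b1, hv⟩ := VYC_one hVYA hD hδ hE hsym hS2 t
  have e : ((y1 t 0 * y2 t 1 - y1 t 1 * y2 t 0 : ℝ) : ℂ) = (D.Y E t g).det * (u0 * v1 - u1 * v0) := by
    push_cast
    rw [a0, a1, b0, b1, Matrix.det_fin_two]
    ring
  have h1 : |y1 t 0 * y2 t 1 - y1 t 1 * y2 t 0| = ‖(D.Y E t g).det‖ * ‖u0 * v1 - u1 * v0‖ := by
    rw [← norm_mul, ← e, Complex.norm_real, Real.norm_eq_abs]
  rw [h1]
  refine mul_le_mul_of_nonneg_left ?_ (norm_nonneg _)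
  have h2 : ‖u0 * v1 - u1 * v0‖ ≤ Real.sqrt (‖u0‖ ^ 2 + ‖u1‖ ^ 2) * Real.sqrt (‖v1‖ ^ 2 + ‖v0‖ ^ 2) := by
    refine (norm_sub_le _ _).trans ?_
    rw [norm_mul, norm_mul]
    exact VYC_cs
  rw [add_comm (‖v1‖ ^ 2)] at h2
  exact h2.trans (mul_le_mul hu hv (Real.sqrt_nonneg _) (Real.sqrt_nonneg _))

end

end Pool.Agent.VQ
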